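import Pool.Agent.Helper21.MT9.Stmts

/-!
# Generation of the Lie algebra of isometries by `Q ⊗ R`
-/

set_option autoImplicit false

open Matrix

namespace MT

namespace Gen9

variable {K : Type} [Field K] {n : ℕ}

theorem LL_add_left (ψ : Matrix (Fin n) (Fin n) K) (ε : K) (x x' y : Fin n → K) :
    LL ψ ε (x + x') y = LL ψ ε x y + LL ψ ε x' y := by
  unfold LL
  rw [add_vecMulVec, mulVec_add, vecMulVec_add, smul_add]
  abel

theorem LL_add_right (ψ : Matrix (Fin n) (Fin n) K) (ε : K) (x y y' : Fin n → K) :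
    LL ψ ε x (y + y') = LL ψ ε x y + LL ψ ε x y' := by
  unfold LL
  rw [add_vecMulVec, mulVec_add, vecMulVec_add, smul_add]
  abel

theorem LL_swap (ψ : Matrix (Fin n) (Fin n) K) {ε : K} (hε : ε * ε = 1) (x y : Fin n → K) :
    LL ψ ε y x = -(ε • LL ψ ε x y) := by
  unfold LL
  rw [smul_sub, smul_smul, hε, one_smul]
  abel

theorem vmv_mul (a b c e : Fin n → K) :
    vecMulVec a b * vecMulVec c e = (b ⬝ᵥ c) • vecMulVec a e := by
  rw [vecMulVec_mul_vecMulVec, vecMulVec_smul]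

theorem dot_swap {ψ : Matrix (Fin n) (Fin n) K} {ε : K} (hs : ψ.transpose = ε • ψ)
    (x y : Fin n → K) : (ψ *ᵥ y) ⬝ᵥ x = ε * ((ψ *ᵥ x) ⬝ᵥ y) := by
  have h1 : (ψ *ᵥ y) ⬝ᵥ x = y ⬝ᵥ (ψ.transpose *ᵥ x) := by
    rw [dotProduct_mulVec, vecMul_transpose]
  rw [h1, hs, smul_mulVec, dotProduct_smul, smul_eq_mul, dotProduct_comm]

theorem bracket {ψ : Matrix (Fin n) (Fin n) K} {ε : K} (hε : ε * ε = 1)
    (hs : ψ.transpose = ε • ψ) (x ρ x' ρ' : Fin n → K) (h1 : (ψ *ᵥ ρ) ⬝ᵥ x' = 0)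
    (h2 : (ψ *ᵥ x) ⬝ᵥ ρ' = 0) (h3 : (ψ *ᵥ ρ') ⬝ᵥ x = 0) (h4 : (ψ *ᵥ x') ⬝ᵥ ρ = 0) :
    LL ψ ε x ρ * LL ψ ε x' ρ' - LL ψ ε x' ρ' * LL ψ ε x ρ =
      ((ψ *ᵥ ρ) ⬝ᵥ ρ') • LL ψ ε x' x + ((ψ *ᵥ x) ⬝ᵥ x') • LL ψ ε ρ' ρ := by
  have e1 : (ψ *ᵥ ρ') ⬝ᵥ ρ = ε * ((ψ *ᵥ ρ) ⬝ᵥ ρ') := dot_swap hs ρ ρ'
  have e2 : (ψ *ᵥ x') ⬝ᵥ x = ε * ((ψ *ᵥ x) ⬝ᵥ x') := dot_swap hs x x'
  unfold LL
  simp only [sub_mul, mul_sub, smul_mul_assoc, mul_smul_comm, vmv_mul, h1, h2, h3, h4, e1, e2,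
    zero_smul, smul_zero, sub_zero, zero_sub, smul_sub, smul_smul]
  have e3 : ε * (ε * ((ψ *ᵥ ρ) ⬝ᵥ ρ')) = (ψ *ᵥ ρ) ⬝ᵥ ρ' := by rw [← mul_assoc, hε, one_mul]
  have e4 : ε * (ε * ((ψ *ᵥ x) ⬝ᵥ x')) = (ψ *ᵥ x) ⬝ᵥ x' := by rw [← mul_assoc, hε, one_mul]
  rw [e3, e4, mul_comm ((ψ *ᵥ ρ) ⬝ᵥ ρ') ε, mul_comm ((ψ *ᵥ x) ⬝ᵥ x') ε]
  abel

theorem core [CharZero K] {ψ : Matrix (Fin n) (Fin n) K} {ε : K} (hε : ε = 1 ∨ ε = -1)
    (hs : ψ.transpose = ε • ψ) {a : Submodule K (Matrix (Fin n) (Fin n) K)} (hb : Brk a)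
    (V W : Submodule K (Fin n → K)) (h1 : ∀ x ∈ V, ∀ ρ ∈ W, (ψ *ᵥ ρ) ⬝ᵥ x = 0)
    (h2 : ∀ x ∈ V, ∀ ρ ∈ W, (ψ *ᵥ x) ⬝ᵥ ρ = 0) (ha : ∀ x ∈ V, ∀ ρ ∈ W, LL ψ ε x ρ ∈ a)
    (hW : ∃ ρ ∈ W, ∃ ρ' ∈ W, (ψ *ᵥ ρ) ⬝ᵥ ρ' ≠ 0) :
    ∀ x ∈ V, ∀ x' ∈ V, LL ψ ε x' x ∈ a := by
  have hεε : ε * ε = 1 := by
    rcases hε with h | h <;> rw [h] <;> ring
  have hbr : ∀ x ∈ V, ∀ x' ∈ V, ∀ ρ ∈ W, ∀ ρ' ∈ W,
      ((ψ *ᵥ ρ) ⬝ᵥ ρ') • LL ψ ε x' x + ((ψ *ᵥ x) ⬝ᵥ x') • LL ψ ε ρ' ρ ∈ a := by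
    intro x hx x' hx' ρ hρ ρ' hρ'
    rw [← bracket hεε hs x ρ x' ρ' (h1 x' hx' ρ hρ) (h2 x hx ρ' hρ') (h1 x hx ρ' hρ')
      (h2 x' hx' ρ hρ)]
    exact hb _ (ha x hx ρ hρ) _ (ha x' hx' ρ' hρ')
  obtain ⟨ρ, hρ, ρ', hρ', hne⟩ := hW
  rcases hε with h | h
  · subst h
    -- symmetric
    have hex : ∃ σ ∈ W, (ψ *ᵥ σ) ⬝ᵥ σ ≠ 0 := by
      by_contra hcon
      push Not at hcon
      have e1 := hcon ρ hρ
      have e2 := hcon ρ' hρ'
      have e3 := hcon (ρ + ρ') (W.add_mem hρ hρ')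
      rw [mulVec_add, add_dotProduct, dotProduct_add, dotProduct_add, e1, e2, dot_swap hs ρ ρ',
        one_mul] at e3
      apply hne
      have e4 : (2 : K) * ((ψ *ᵥ ρ) ⬝ᵥ ρ') = 0 := by
        rw [← e3]
        ring
      exact (mul_eq_zero.mp e4).resolve_left two_ne_zero
    obtain ⟨σ, hσ, hσ0⟩ := hex
    intro x hx x' hx'
    have e1 := hbr x hx x' hx' σ hσ σ hσ
    have e2 : LL ψ 1 σ σ = 0 := by
      unfold LL
      rw [one_smul, sub_self]
    rw [e2, smul_zero, add_zero] at e1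
    exact (Submodule.smul_mem_iff a hσ0).mp e1
  · subst h
    have hself : ∀ x : Fin n → K, (ψ *ᵥ x) ⬝ᵥ x = 0 := by
      intro x
      have e1 := dot_swap hs x x
      have e2 : (2 : K) * ((ψ *ᵥ x) ⬝ᵥ x) = 0 := by
        rw [two_mul]
        nth_rewrite 1 [e1]
        ring
      exact (mul_eq_zero.mp e2).resolve_left two_ne_zero
    have hdiag : ∀ x ∈ V, LL ψ (-1) x x ∈ a := by
      intro x hx
      have e1 := hbr x hx x hx ρ hρ ρ' hρ'
      rw [hself x, zero_smul, add_zero] at e1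
      exact (Submodule.smul_mem_iff a hne).mp e1
    intro x hx x' hx'
    have e1 := hdiag (x + x') (V.add_mem hx hx')
    have e2 : LL ψ (-1) (x + x') (x + x') =
        LL ψ (-1) x x + LL ψ (-1) x' x' + (2 : K) • LL ψ (-1) x' x := by
      rw [LL_add_left, LL_add_right, LL_add_right, LL_swap ψ hεε x' x, two_smul]
      rw [neg_smul, one_smul, neg_neg]
      abel
    rw [e2] at e1
    have e3 := (Submodule.add_mem_iff_right a (a.add_mem (hdiag x hx) (hdiag x' hx'))).mp e1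
    exact (Submodule.smul_mem_iff a two_ne_zero).mp e3

end Gen9

open Gen9

theorem st_GEN : ST_GEN := by
  intro K _ _ n ε ψ d N a hT ha A hA
  have hεε : ε * ε = 1 := by
    rcases hT.sign with h | h <;> rw [h] <;> ring
  let V : Submodule K (Fin n → K) :=
    { carrier := {x | ∀ j, x j ≠ 0 → d j = N ∨ d j = -N}
      zero_mem' := fun j hj => absurd rfl hj
      add_mem' := by
        intro x y hx hy j hj
        by_cases h0 : x j = 0
        · apply hy j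
          intro h1
          apply hj
          rw [Pi.add_apply, h0, h1, add_zero]
        · exact hx j h0
      smul_mem' := by
        intro c x hx j hj
        apply hx j
        intro h0
        apply hj
        rw [Pi.smul_apply, h0, smul_zero] }
  let W : Submodule K (Fin n → K) :=
    { carrier := {x | ∀ j, x j ≠ 0 → |d j| < N}
      zero_mem' := fun j hj => absurd rfl hj
      add_mem' := by
        intro x y hx hy j hj
        by_cases h0 : x j = 0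
        · apply hy j
          intro h1
          apply hj
          rw [Pi.add_apply, h0, h1, add_zero]
        · exact hx j h0
      smul_mem' := by
        intro c x hx j hj
        apply hx j
        intro h0
        apply hj
        rw [Pi.smul_apply, h0, smul_zero] }
  have hN : 0 < N := hT.pos
  -- orthogonality
  have hor : ∀ u v : Fin n → K, (∀ i j, u i ≠ 0 → v j ≠ 0 → ψ i j = 0) →
      (ψ *ᵥ v) ⬝ᵥ u = 0 := by
    intro u v huv
    unfold dotProduct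
    apply Finset.sum_eq_zero
    intro i _
    by_cases hi : u i = 0
    · rw [hi, mul_zero]
    · have h0 : (ψ *ᵥ v) i = 0 := by
        rw [mulVec_eq_sum, Finset.sum_apply]
        apply Finset.sum_eq_zero
        intro j _
        by_cases hj : v j = 0
        · simp [hj]
        · simp [huv i j hi hj]
      rw [h0, zero_mul]
  have hVW : ∀ i j, (d i = N ∨ d i = -N) → |d j| < N → ψ i j = 0 ∧ ψ j i = 0 := by
    intro i j hi hj
    rw [abs_lt] at hj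
    constructor
    · by_contra h0
      have := hT.grad i j h0
      omega
    · by_contra h0
      have := hT.grad j i h0
      omega
  have h1 : ∀ x ∈ V, ∀ ρ ∈ W, (ψ *ᵥ ρ) ⬝ᵥ x = 0 := by
    intro x hx ρ hρ
    exact hor x ρ fun i j hi hj => (hVW i j (hx i hi) (hρ j hj)).1
  have h2 : ∀ x ∈ V, ∀ ρ ∈ W, (ψ *ᵥ x) ⬝ᵥ ρ = 0 := by
    intro x hx ρ hρ
    exact hor ρ x fun i j hi hj => (hVW j i (hx j hj) (hρ i hi)).2
  have hcol : ∀ j, ∃ i, ψ i j ≠ 0 := by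
    intro j
    by_contra hcon
    push Not at hcon
    exact hT.unit (Matrix.det_eq_zero_of_column_eq_zero j hcon)
  have hpair : ∀ (U : Submodule K (Fin n → K)) (i j : Fin n), ψ i j ≠ 0 →
      (Pi.single j 1 : Fin n → K) ∈ U → (Pi.single i 1 : Fin n → K) ∈ U →
      ∃ ρ ∈ U, ∃ ρ' ∈ U, (ψ *ᵥ ρ) ⬝ᵥ ρ' ≠ 0 := by
    intro U i j hij hj hi
    refine ⟨_, hj, _, hi, ?_⟩
    rw [mulVec_single_one, dotProduct_single_one]
    exact hij
  have hW : ∃ ρ ∈ W, ∃ ρ' ∈ W, (ψ *ᵥ ρ) ⬝ᵥ ρ' ≠ 0 := by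
    obtain ⟨j, hj⟩ := hT.inner
    obtain ⟨i, hi⟩ := hcol j
    have hg := hT.grad i j hi
    apply hpair W i j hi
    · intro k hk
      have : k = j := by
        by_contra hkj
        exact hk (Pi.single_eq_of_ne hkj 1)
      rw [this]
      exact hj
    · intro k hk
      have : k = i := by
        by_contra hkj
        exact hk (Pi.single_eq_of_ne hkj 1)
      rw [this]
      have h3 : d i = - d j := by omega
      rw [h3, abs_neg]
      exact hj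
  have hV : ∃ ρ ∈ V, ∃ ρ' ∈ V, (ψ *ᵥ ρ) ⬝ᵥ ρ' ≠ 0 := by
    have hc := hT.top
    have hne : (Finset.univ.filter fun j => d j = N).Nonempty := by
      rw [← Finset.card_pos]
      omega
    obtain ⟨j, hj⟩ := hne
    rw [Finset.mem_filter] at hj
    obtain ⟨i, hi⟩ := hcol j
    have hg := hT.grad i j hi
    apply hpair V i j hi
    · intro k hk
      have : k = j := by
        by_contra hkj
        exact hk (Pi.single_eq_of_ne hkj 1)
      rw [this]
      exact Or.inl hj.2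
    · intro k hk
      have : k = i := by
        by_contra hkj
        exact hk (Pi.single_eq_of_ne hkj 1)
      rw [this]
      right
      omega
  have haV : ∀ x ∈ V, ∀ ρ ∈ W, LL ψ ε x ρ ∈ a := fun x hx ρ hρ => ha x ρ hx hρ
  have haW : ∀ ρ ∈ W, ∀ x ∈ V, LL ψ ε ρ x ∈ a := by
    intro ρ hρ x hx
    rw [LL_swap ψ hεε x ρ]
    exact a.neg_mem (a.smul_mem _ (haV x hx ρ hρ))
  have hQQ := core hT.sign hT.symm hT.brk V W h1 h2 haV hW
  have hRR := core hT.sign hT.symm hT.brk W V (fun ρ hρ x hx => h2 x hx ρ hρ)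
    (fun ρ hρ x hx => h1 x hx ρ hρ) haW hV
  -- all `LL`
  have hsplit : ∀ u : Fin n → K, ∃ x ∈ V, ∃ ρ ∈ W, u = x + ρ := by
    intro u
    refine ⟨fun j => if |d j| < N then 0 else u j, ?_, fun j => if |d j| < N then u j else 0,
      ?_, ?_⟩
    · intro j hj
      have h3 : ¬ |d j| < N := by
        intro h4
        apply hj
        simp [h4]
      have h5 := hT.bd j
      have h6 : |d j| = N := by omega
      rcases abs_choice (d j) with h7 | h7
      · left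
        omega
      · right
        omega
    · intro j hj
      by_contra h4
      apply hj
      simp [h4]
    · ext j
      by_cases h4 : |d j| < N
      · simp [h4]
      · simp [h4]
  have hall : ∀ u v : Fin n → K, LL ψ ε u v ∈ a := by
    intro u v
    obtain ⟨x, hx, ρ, hρ, rfl⟩ := hsplit u
    obtain ⟨x', hx', ρ', hρ', rfl⟩ := hsplit v
    rw [LL_add_left, LL_add_right, LL_add_right]
    exact a.add_mem (a.add_mem (hQQ x' hx' x hx) (haV x hx ρ' hρ'))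
      (a.add_mem (haW ρ hρ x' hx') (hRR ρ' hρ' ρ hρ))
  -- the matrix is a sum of these
  have hdet : IsUnit ψ.det := isUnit_iff_ne_zero.mpr hT.unit
  have hsum : ∑ j, LL ψ ε (A *ᵥ Pi.single j 1) (ψ⁻¹ *ᵥ Pi.single j 1) = (2 : K) • A := by
    unfold LL
    rw [Finset.sum_sub_distrib, ← Finset.smul_sum]
    have e1 : ∀ B C : Matrix (Fin n) (Fin n) K,
        ∑ j, vecMulVec (B *ᵥ Pi.single j 1) (C *ᵥ Pi.single j 1) = B * C.transpose := by
      intro B C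
      ext p q
      rw [Matrix.sum_apply, Matrix.mul_apply]
      apply Finset.sum_congr rfl
      intro j _
      rw [vecMulVec_apply, mulVec_single_one, mulVec_single_one]
      rfl
    have e2 : ∀ j : Fin n, ψ *ᵥ (ψ⁻¹ *ᵥ Pi.single j 1) = (1 : Matrix (Fin n) (Fin n) K) *ᵥ
        (Pi.single j 1 : Fin n → K) := by
      intro j
      rw [mulVec_mulVec, Matrix.mul_nonsing_inv _ hdet]
    have e3 : ∀ j : Fin n, ψ *ᵥ (A *ᵥ Pi.single j 1) = (ψ * A) *ᵥ
        (Pi.single j 1 : Fin n → K) := by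
      intro j
      rw [mulVec_mulVec]
    simp only [e2, e3]
    rw [e1, e1, transpose_one, Matrix.mul_one, transpose_mul, hT.symm]
    have e4 : A.transpose * ψ = -(ψ * A) := eq_neg_of_add_eq_zero_left hA
    rw [Matrix.mul_smul, Matrix.mul_smul, smul_smul, hεε, one_smul, e4, Matrix.mul_neg,
      ← Matrix.mul_assoc, Matrix.nonsing_inv_mul _ hdet, Matrix.one_mul, sub_neg_eq_add, two_smul]
  have hmem : (2 : K) • A ∈ a := by
    rw [← hsum]
    exact Submodule.sum_mem _ fun j _ => hall _ _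
  exact (Submodule.smul_mem_iff a two_ne_zero).mp hmem

end MT
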